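import Pool.Agent.W539.Cone.Link

/-!
# From the absolute to the relative nef cone conjecture

`(X, Δ)` is a projective klt Calabi-Yau pair, `V = N^1(X)`, `E = Nef^e(X)`, `Γ` the image of
`Aut(X, Δ)`: a `ConeRep`, which is `Good` iff the nef cone conjecture holds for `(X, Δ)`. A
contraction `f : X → Z` defines the face `F = f^* Nef^e(Z)` of `E`, whose stabiliser is the group
`Aut(X, Δ; f)` of automorphisms mapping fibres of `f` to fibres. The base along `F` is `N^1(Z)` with
the cone `Nef^e(Z)`; the link along `F` with respect to `p : N^1(X) → N^1(X/Z)` is the image of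
`Nef^e(X)` in `N^1(X/Z)`, a cone between the relative ample and nef cones.
-/

namespace Pool.Agent.Results.MP_20d318_ag.ContractionCones

open Pool.Agent.W539.Cone

theorem result {V : Type} [NormedAddCommGroup V] [NormedSpace ℝ V] [FiniteDimensional ℝ V]
    (R : ConeRep V) (hR : R.Good) {F : Set V} (hF : IsFace R.E F) :
    (∀ (W : Submodule ℝ V) (Q : ConeRep W), IsBase R F Q → Q.Good) ∧
    ∀ (U : Type) [NormedAddCommGroup U] [NormedSpace ℝ U] [FiniteDimensional ℝ U]
      (p : V →ₗ[ℝ] U) (Q : ConeRep U), IsLink R F p Q → Q.Good :=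
  ⟨fun _ Q hQ => base_good R hR hF Q hQ, fun _ _ _ _ p Q hQ => link_good R hR hF p Q hQ⟩

end Pool.Agent.Results.MP_20d318_ag.ContractionCones
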